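import Pool.Agent.Helper58.QD.Defs

/-!
# First-order logic with a second-order quantifier: statements of the blocks
-/

set_option autoImplicit false

namespace Pool.Agent.Helper58.QD

open FirstOrder Pool.Agent.Helper20.Spectra Pool.Agent.Helper14.SS

/-- A (helper6) -/
def StmtCore : Prop := ∀ k : ℕ, ∃ c : ℕ, ∀ s : ℕ, 1 ≤ s → ∀ (M : Type) [Fintype M]
  [DecidableEq M] (R : (Fin k → M) → Prop),
  (∃ C : Finset M, C.card ≤ c * s ^ 2 ∧ Sup R C) ∨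
  ∃ (J : Finset (Fin k)) (π : Equiv.Perm M) (a1 a2 : Fin k → M) (p : M) (X : Finset M),
    (∀ x, x ∈ X ↔ XJ J R (fun t => R (π ∘ t)) a1 a2 p x) ∧ s < X.card ∧
    X.card + s < Fintype.card M

/-- B (helper31): shrinking. The rank of `χ` enters only through the Ehrenfeucht argument. -/
def StmtShrink : Prop := ∀ (S : Type) [Finite S] (ar : S → ℕ) (χ : (RelLang S ar).Sentence),
  ¬ Bdd χ → ∀ N, ∃ n, N ≤ n ∧ ∃ R : Interp S ar (Fin n), IsMod χ R ∧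
    ∀ C : Finset (Fin n), SupI R C → n ≤ 2 * C.card

/-- C1 (helper83) -/
def StmtPoly : Prop := ∀ (S : Type) [Finite S] (ar : S → ℕ) (χ : (RelLang S ar).Sentence),
  Bdd χ → ∃ c, ∀ n, 2 ≤ n → count χ n ≤ n ^ c

/-- C2 (helper83) -/
def StmtMany : Prop := ∀ (S : Type) [Finite S] (ar : S → ℕ) (χ : (RelLang S ar).Sentence),
  (∀ n ∈ TT χ, ∀ X : Finset (Fin n), X.card ≤ sr n → Dec χ X) → (TT χ).Infinite →
  ∀ N, ∃ n m, N ≤ n ∧ n ≤ m ^ 6 ∧ 2 ^ m ≤ count χ n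

/-- C3 (helper83) -/
def StmtExcl : Prop := ∀ f : ℕ → ℕ, (∀ N, ∃ n m, N ≤ n ∧ n ≤ m ^ 6 ∧ 2 ^ m ≤ f n) →
  ¬ ∃ c, ∀ n, 2 ≤ n → f n ≤ n ^ c

/-- D (helper85): elimination of a bounded quantifier -/
def StmtElim : Prop := ∀ (S : Type) [Finite S] (ar : S → ℕ) (χ : (RelLang S ar).Sentence),
  Bdd χ → ∀ (L : FirstOrder.Language.{0, 0}) (α : Type) (φ : QFm L S ar α Empty),
    ∃ ψ : L.Formula α, ∀ (M : Type) [L.Structure M] [Finite M] (v : α → M),
      φ.Holds χ v Empty.elim ↔ ψ.Realize v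

/-- E1 (helper38): all small sets, by invariance -/
def StmtInv : Prop := ∀ (S : Type) [Finite S] (ar : S → ℕ) (χ : (RelLang S ar).Sentence),
  ∀ n ∈ TT χ, ∀ X : Finset (Fin n), X.card ≤ sr n → Dec χ X

/-- E2 (helper38): from the core -/
def StmtInf : Prop := ∀ (S : Type) [Finite S] (ar : S → ℕ) (χ : (RelLang S ar).Sentence),
  (∀ N, ∃ n, N ≤ n ∧ ∃ R : Interp S ar (Fin n), IsMod χ R ∧
    ∀ C : Finset (Fin n), SupI R C → n ≤ 2 * C.card) → (TT χ).Infinite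

/-- F (helper58, helper12): translation -/
def StmtTransQ : Prop := ∀ (S : Type) [Finite S] (ar : S → ℕ) (χ : (RelLang S ar).Sentence),
  (∀ n ∈ TT χ, ∀ X : Finset (Fin n), X.card ≤ sr n → Dec χ X) →
  ∀ φ : SFm ArL 0 0, QSpectrum χ (TT χ ∩ arithS sr φ)

/-- G (helper40): `TT χ` is a spectrum -/
def StmtSpecT : Prop := ∀ (S : Type) [Finite S] (ar : S → ℕ) (χ : (RelLang S ar).Sentence),
  IsSpectrum (TT χ)

/-- H (helper20, helper14): the diagonal set -/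
def StmtDiagT : Prop := ∀ T : Set ℕ, IsSpectrum T → T.Infinite →
  (∀ A : Set ℕ, IsSpectrum A → PolyHier A) → ∃ φ : SFm ArL 0 0, ¬ PolyHier (T ∩ arithS sr φ)

/-- H0 (helper20, helper14) -/
def StmtRudPH : Prop := ∀ A : Set ℕ, IsRudimentary A → PolyHier A

/-- fallback of H -/
def StmtDiagR : Prop := ∀ T : Set ℕ, IsSpectrum T → T.Infinite →
  (∀ A : Set ℕ, IsSpectrum A → IsRudimentary A) →
    ∃ φ : SFm ArL 0 0, ¬ IsRudimentary (T ∩ arithS sr φ)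

end Pool.Agent.Helper58.QD
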