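import Pool.Agent.Helper14.SS.Defs

/-!
# First-order logic with a second-order quantifier: definitions
-/

set_option autoImplicit false

namespace Pool.Agent.Helper58.QD

open FirstOrder Pool.Agent.Helper20.Spectra

variable {S : Type} {ar : S → ℕ}

/-- The interpretation `R` of the relation symbols `S` (of arities `ar`) on `M` is a model of the
first-order sentence `χ`. -/
def IsMod (χ : (RelLang S ar).Sentence) {M : Type} (R : Interp S ar M) : Prop :=
  @Language.Sentence.Realize (RelLang S ar) M (mkS R) χ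

/-- Formulas over the vocabulary `L` with first-order quantifiers `ex` and with a quantifier `exR`
over interpretations of the relation symbols `S`: `QFm L S ar α β` has the free element variables
`α` and the free variables `β` for interpretations; `rel j s t` says that the tuple `t` is in the
relation `s` of the interpretation `j`. -/
inductive QFm (L : FirstOrder.Language.{0, 0}) (S : Type) (ar : S → ℕ) : Type → Type → Type 1
  | fo {α β : Type} (φ : L.Formula α) : QFm L S ar α β
  | rel {α β : Type} (j : β) (s : S) (t : Fin (ar s) → α) : QFm L S ar α β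
  | not {α β : Type} (φ : QFm L S ar α β) : QFm L S ar α β
  | and {α β : Type} (φ ψ : QFm L S ar α β) : QFm L S ar α β
  | ex {α β : Type} (φ : QFm L S ar (α ⊕ Unit) β) : QFm L S ar α β
  | exR {α β : Type} (φ : QFm L S ar α (β ⊕ Unit)) : QFm L S ar α β

/-- Truth in the structure `M`: the quantifier `exR` ranges over the models of `χ` with universe
`M`. -/
def QFm.Holds {L : FirstOrder.Language.{0, 0}} (χ : (RelLang S ar).Sentence) {M : Type}
    [L.Structure M] : {α β : Type} → QFm L S ar α β → (α → M) → (β → Interp S ar M) → Prop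
  | _, _, .fo φ, v, _ => φ.Realize v
  | _, _, .rel j s t, v, V => V j s (fun i => v (t i))
  | _, _, .not φ, v, V => ¬ φ.Holds χ v V
  | _, _, .and φ ψ, v, V => φ.Holds χ v V ∧ ψ.Holds χ v V
  | _, _, .ex φ, v, V => ∃ x : M, φ.Holds χ (Sum.elim v (fun _ => x)) V
  | _, _, .exR φ, v, V => ∃ R : Interp S ar M, IsMod χ R ∧
      φ.Holds χ v (Sum.elim V (fun _ => R))

/-- The class `S_χ`: the spectra of the sentences with first-order quantifiers and the quantifier
`there is a model of χ on the universe`. -/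
def QSpectrum (χ : (RelLang S ar).Sentence) (A : Set ℕ) : Prop :=
  ∃ (L : FirstOrder.Language.{0, 0}) (_ : Finite (Σ l, L.Functions l))
    (_ : Finite (Σ l, L.Relations l)) (φ : QFm L S ar Empty Empty),
    A = {n : ℕ | 1 ≤ n ∧ ∃ (M : Type) (_ : L.Structure M) (_ : Fintype M),
      Fintype.card M = n ∧ φ.Holds (M := M) χ Empty.elim Empty.elim}

/-- the number of models of `χ` with universe `{0, ..., n - 1}` -/
noncomputable def count (χ : (RelLang S ar).Sentence) (n : ℕ) : ℕ :=
  Nat.card {R : Interp S ar (Fin n) // IsMod χ R}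

/-- `A` is in the polynomial-time hierarchy (positive integers in binary): there are a rudimentary
set `E` and a number `c` such that for all `n ≥ 1` and all `p` which are at least `2 ^ (ℓ ^ c)`,
where `ℓ` is the binary length of `n`: `n ∈ A` iff the pair `(n, p)`, coded by
`(n + p) ^ 2 + n`, is in `E`. -/
def PolyHier (A : Set ℕ) : Prop :=
  ∃ (E : Set ℕ) (c : ℕ), IsRudimentary E ∧ ∀ n, 1 ≤ n → ∀ p,
    2 ^ ((Nat.log 2 n + 1) ^ c) ≤ p → (n ∈ A ↔ (n + p) ^ 2 + n ∈ E)

/-! ## Working definitions -/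

/-- `C` supports the relation `Q` -/
def Sup {M : Type} {k : ℕ} (Q : (Fin k → M) → Prop) (C : Finset M) : Prop :=
  ∀ σ : Equiv.Perm M, (∀ x ∈ C, σ x = x) → ∀ t : Fin k → M, Q (σ ∘ t) ↔ Q t

/-- `C` supports all relations -/
def SupI {M : Type} (R : Interp S ar M) (C : Finset M) : Prop := ∀ s, Sup (R s) C

/-- `t` overwritten by `a` on `J` -/
def ov {M : Type} {k : ℕ} (J : Finset (Fin k)) (a t : Fin k → M) : Fin k → M :=
  fun i => if i ∈ J then a i else t i

/-- `x` and `p` are twins for the difference of two sections -/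
def XJ {M : Type} [DecidableEq M] {k : ℕ} (J : Finset (Fin k)) (R1 R2 : (Fin k → M) → Prop)
    (a1 a2 : Fin k → M) (p x : M) : Prop :=
  ∀ t : Fin k → M, ((R1 (ov J a1 (Equiv.swap x p ∘ t)) ↔ R2 (ov J a2 (Equiv.swap x p ∘ t))) ↔
    (R1 (ov J a1 t) ↔ R2 (ov J a2 t)))

/-- the sets given by two models of `χ` -/
def Dec1 (χ : (RelLang S ar).Sentence) {n : ℕ} (X : Finset (Fin n)) : Prop :=
  ∃ (s : S) (J : Finset (Fin (ar s))) (R1 R2 : Interp S ar (Fin n)) (a1 a2 : Fin (ar s) → Fin n)
    (p : Fin n), IsMod χ R1 ∧ IsMod χ R2 ∧ ∀ x, x ∈ X ↔ XJ J (R1 s) (R2 s) a1 a2 p x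

/-- differences of two such sets -/
def Dec (χ : (RelLang S ar).Sentence) {n : ℕ} (Z : Finset (Fin n)) : Prop :=
  ∃ X Y : Finset (Fin n), Dec1 χ X ∧ Dec1 χ Y ∧ ∀ x, x ∈ Z ↔ x ∈ X ∧ x ∉ Y

/-- the fifth root -/
def sr (n : ℕ) : ℕ := Nat.findGreatest (fun b => b ^ 5 ≤ n) n

/-- initial segments -/
def iniS (n l : ℕ) : Finset (Fin n) := Finset.univ.filter (fun x => (x : ℕ) < l)

/-- the sizes for which all small sets are given by models of `χ` -/
def TT (χ : (RelLang S ar).Sentence) : Set ℕ :=
  {n | 1 ≤ n ∧ ∀ l, l ≤ sr n → Dec χ (iniS n l)}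

/-- bounded supports -/
def Bdd (χ : (RelLang S ar).Sentence) : Prop :=
  ∃ b : ℕ, ∀ (n : ℕ) (R : Interp S ar (Fin n)), IsMod χ R → ∃ C : Finset (Fin n), C.card ≤ b ∧
    SupI R C

end Pool.Agent.Helper58.QD
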