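import Pool.Agent.Helper58.QD.QDef
import Pool.Agent.Helper12.SS.Spec

/-!
# Translation of formulas with small sets; transport to all structures
-/

set_option autoImplicit false

namespace Pool.Agent.Helper58.QD

open FirstOrder FirstOrder.Language Pool.Agent.Helper20.Spectra Pool.Agent.Helper14.SS
  Pool.Agent.Helper12.SS

variable {S : Type} {ar : S → ℕ}

/-- F1 -/
theorem transF {χ : (RelLang S ar).Sentence} (K : Codes χ) (s : ℕ → ℕ) {k m : ℕ}
    (φ : SFm ArL k m) : ∀ γ : Fin m → K.Cd, ∃ P : QP S ar (Fin k ⊕ Fin m × K.E) (Fin m × K.Rh),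
      Qdf χ (Fin k ⊕ Fin m × K.E) (Fin m × K.Rh) P ∧ ∀ n, K.Good n (s n) →
        ∀ (v : Fin k ⊕ Fin m × K.E → Fin n) (V : Fin m × K.Rh → Interp S ar (Fin n))
          (Y : Fin m → Finset (Fin n)),
          (∀ j x, x ∈ Y j ↔ K.dc (γ j) n (fun e => v (Sum.inr (j, e))) (fun r => V (j, r)) x) →
          (P n v V ↔ @SFm.Holds ArL (Fin n) (mkS (arI n)) (s n) k m φ (v ∘ Sum.inl) Y) := by
  have := K.finCd
  have := K.finE
  have := K.finRh
  induction φ with
  | fo φ =>
    rename_i k m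
    intro γ
    refine ⟨fun n v _ => @Formula.Realize ArL (Fin n) (mkS (arI n)) _ φ (v ∘ Sum.inl),
      ⟨.fo (φ.relabel Sum.inl), fun n v V => ?_⟩, fun n _ v V Y _ => Iff.rfl⟩
    exact @Formula.realize_relabel ArL (Fin n) (mkS (arI n)) _ _ φ Sum.inl v
  | mem i j =>
    rename_i k m
    intro γ
    refine ⟨fun n v V => K.dc (γ j) n (fun e => v (Sum.inr (j, e))) (fun r => V (j, r))
      (v (Sum.inl i)), ?_, fun n _ v V Y hY => (hY j _).symm⟩
    exact ((K.hdc (γ j)).sub (α' := Fin k ⊕ Fin m × K.E) (β' := Fin m × K.Rh)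
      (Sum.elim (fun e => Sum.inr (j, e)) (fun _ => Sum.inl i))
      (fun r => (j, r))).congr (fun n v V => Iff.rfl)
  | not φ ih =>
    intro γ
    obtain ⟨P, h1, h2⟩ := ih γ
    exact ⟨_, h1.not, fun n hn v V Y hY => not_congr (h2 n hn v V Y hY)⟩
  | and φ ψ ih ih' =>
    intro γ
    obtain ⟨P, h1, h2⟩ := ih γ
    obtain ⟨Q, h3, h4⟩ := ih' γ
    exact ⟨_, h1.and h3, fun n hn v V Y hY => and_congr (h2 n hn v V Y hY) (h4 n hn v V Y hY)⟩
  | ex φ ih =>
    rename_i k m
    intro γ
    obtain ⟨P, h1, h2⟩ := ih γ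
    refine ⟨fun n v V => ∃ x : Fin n, P n (Sum.elim (Fin.cons x (v ∘ Sum.inl) : Fin (k + 1) → Fin n)
      (v ∘ Sum.inr)) V, ?_, ?_⟩
    · refine Qdf.ex (P := fun n v V x => P n (Sum.elim (Fin.cons x (v ∘ Sum.inl) :
        Fin (k + 1) → Fin n) (v ∘ Sum.inr)) V) ?_
      refine (h1.sub (α' := (Fin k ⊕ Fin m × K.E) ⊕ Unit)
        (Sum.elim (Fin.cases (Sum.inr ()) (fun i => Sum.inl (Sum.inl i)))
          (fun z => Sum.inl (Sum.inr z))) id).congr (fun n v V => ?_)
      refine Iff.of_eq (congrFun (congrArg (P n) ?_) V)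
      funext i
      rcases i with i | i
      · refine Fin.cases ?_ (fun i => ?_) i <;> rfl
      · rfl
    · intro n hn v V Y hY
      exact exists_congr (fun x => h2 n hn _ V Y hY)
  | exSet φ ih =>
    rename_i k m
    intro γ
    choose P h1 h2 using fun c : K.Cd => ih (Fin.cons c γ : Fin (m + 1) → K.Cd)
    let ev : ∀ {n : ℕ}, (Fin k ⊕ Fin m × K.E → Fin n) → (K.E → Fin n) →
        (Fin k ⊕ Fin (m + 1) × K.E → Fin n) := fun {n} v p =>
      Sum.elim (fun i => v (Sum.inl i)) (fun z => Fin.cases (motive := fun _ => Fin n) (p z.2)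
        (fun j => v (Sum.inr (j, z.2))) z.1)
    let eV : ∀ {n : ℕ}, (Fin m × K.Rh → Interp S ar (Fin n)) → (K.Rh → Interp S ar (Fin n)) →
        (Fin (m + 1) × K.Rh → Interp S ar (Fin n)) := fun {n} V W =>
      fun z => Fin.cases (motive := fun _ => Interp S ar (Fin n)) (W z.2) (fun j => V (j, z.2)) z.1
    refine ⟨fun n v V => ∃ c : K.Cd, ∃ p : K.E → Fin n, ∃ W : K.Rh → Interp S ar (Fin n),
      (∀ j, IsMod χ (W j)) ∧ (K.gd c n p W ∧ P c n (ev v p) (eV V W)), ?_, ?_⟩
    · refine Qdf.exFin (fun c => ?_)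
      refine Qdf.exF (γ := K.E) (P := fun n v V p => ∃ W : K.Rh → Interp S ar (Fin n),
        (∀ j, IsMod χ (W j)) ∧ (K.gd c n p W ∧ P c n (ev v p) (eV V W))) ?_
      refine Qdf.exRF (γ := K.Rh) (P := fun n v V W => K.gd c n (v ∘ Sum.inr) W ∧
        P c n (ev (v ∘ Sum.inl) (v ∘ Sum.inr)) (eV V W)) ?_
      refine Qdf.and ?_ ?_
      · exact ((K.hgd c).sub (α' := (Fin k ⊕ Fin m × K.E) ⊕ K.E)
          (β' := (Fin m × K.Rh) ⊕ K.Rh) Sum.inr Sum.inr).congr (fun n v V => Iff.rfl)
      · refine ((h1 c).sub (α' := (Fin k ⊕ Fin m × K.E) ⊕ K.E) (β' := (Fin m × K.Rh) ⊕ K.Rh)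
          (Sum.elim (fun i => Sum.inl (Sum.inl i)) (fun z => Fin.cases
            (motive := fun _ => (Fin k ⊕ Fin m × K.E) ⊕ K.E) (Sum.inr z.2)
            (fun j => Sum.inl (Sum.inr (j, z.2))) z.1))
          (fun z => Fin.cases (motive := fun _ => (Fin m × K.Rh) ⊕ K.Rh) (Sum.inr z.2)
            (fun j => Sum.inl (j, z.2)) z.1)).congr (fun n v V => ?_)
        have e1 : ev (v ∘ Sum.inl) (v ∘ Sum.inr) = v ∘ (Sum.elim (fun i => Sum.inl (Sum.inl i))
            (fun z => Fin.cases (motive := fun _ => (Fin k ⊕ Fin m × K.E) ⊕ K.E) (Sum.inr z.2)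
            (fun j => Sum.inl (Sum.inr (j, z.2))) z.1)) := by
          funext i
          rcases i with i | ⟨i, e⟩
          · rfl
          · refine Fin.cases ?_ (fun i => ?_) i <;> rfl
        have e2 : eV (V ∘ Sum.inl) (V ∘ Sum.inr) = V ∘ (fun z => Fin.cases
            (motive := fun _ => (Fin m × K.Rh) ⊕ K.Rh) (Sum.inr z.2)
            (fun j => Sum.inl (j, z.2)) z.1) := by
          funext ⟨i, e⟩
          refine Fin.cases ?_ (fun i => ?_) i <;> rfl
        show P c n (ev (v ∘ Sum.inl) (v ∘ Sum.inr)) (eV (V ∘ Sum.inl) (V ∘ Sum.inr)) ↔ _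
        rw [e1, e2]
    · intro n hn v V Y hY
      have key : ∀ (c : K.Cd) (p : K.E → Fin n) (W : K.Rh → Interp S ar (Fin n))
          (X : Finset (Fin n)), (∀ x, x ∈ X ↔ K.dc c n p W x) →
          (P c n (ev v p) (eV V W) ↔ @SFm.Holds ArL (Fin n) (mkS (arI n)) (s n) k (m + 1) φ
            (v ∘ Sum.inl) (Fin.cons X Y)) := by
        intro c p W X hX
        refine h2 c n hn (ev v p) (eV V W) (Fin.cons X Y : Fin (m + 1) → Finset (Fin n)) ?_
        intro j x
        refine Fin.cases ?_ (fun j => ?_) j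
        · exact hX x
        · exact hY j x
      show _ ↔ ∃ X : Finset (Fin n), X.card ≤ s n ∧ @SFm.Holds ArL (Fin n) (mkS (arI n)) (s n) k
        (m + 1) φ (v ∘ Sum.inl) (Fin.cons X Y)
      constructor
      · rintro ⟨c, p, W, hW, hg, hP⟩
        classical
        have hX : ∀ x, x ∈ Finset.univ.filter (fun x => K.dc c n p W x) ↔ K.dc c n p W x := by
          intro x
          simp
        exact ⟨_, (hn _).2 ⟨c, p, W, hW, hg, hX⟩, (key c p W _ hX).1 hP⟩
      · rintro ⟨X, hX, hP⟩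
        obtain ⟨c, p, W, hW, hg, hX⟩ := (hn X).1 hX
        exact ⟨c, p, W, hW, hg, (key c p W X hX).2 hP⟩

theorem f1 : StmtF1 := by
  intro S _ ar χ K s φ
  obtain ⟨P, h1, h2⟩ := transF K s φ (fun i => i.elim0)
  obtain ⟨P', hP'⟩ : ∃ P' : ℕ → Prop, ∀ n v V, P n v V ↔ P' n := by
    refine ⟨fun n => P n (Sum.elim Fin.elim0 (fun z => z.1.elim0)) (fun z => z.1.elim0), ?_⟩
    intro n v V
    have e1 : v = Sum.elim Fin.elim0 (fun z => z.1.elim0) := by
      funext i
      rcases i with i | i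
      · exact i.elim0
      · exact i.1.elim0
    have e2 : V = fun z => z.1.elim0 := by
      funext i
      exact i.1.elim0
    rw [e1, e2]
  refine ⟨P', ?_, ?_⟩
  · exact (h1.sub (α' := Empty) (β' := Empty)
      (Sum.elim (fun i => i.elim0) (fun z => z.1.elim0)) (fun z => z.1.elim0)).congr
      (fun n v V => (hP' n _ _).symm)
  · intro n hn
    have h3 := h2 n hn (Sum.elim Fin.elim0 (fun z => z.1.elim0)) (fun z => z.1.elim0)
      Fin.elim0 (fun j => j.elim0)
    rw [← hP' n (Sum.elim Fin.elim0 (fun z => z.1.elim0)) (fun z => z.1.elim0), h3]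
    exact Iff.rfl

/-! ## Transport -/

lemma isMod_transport (χ : (RelLang S ar).Sentence) {M N : Type} (e : M ≃ N)
    (R : Interp S ar M) : IsMod χ R ↔ IsMod χ (fun s (w : Fin (ar s) → N) => R s (e.symm ∘ w)) := by
  unfold IsMod
  let _ := mkS R
  let _ := mkS (fun s (w : Fin (ar s) → N) => R s (e.symm ∘ w))
  let E : M ≃[RelLang S ar] N :=
    { e with
      map_fun' := fun f => Empty.elim f
      map_rel' := by
        intro n r x
        show R r.1 _ ↔ R r.1 _
        have : (e.symm ∘ fun i => (e ∘ x) (Fin.cast r.2 i)) = fun i => x (Fin.cast r.2 i) := by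
          funext i
          simp
        exact Iff.of_eq (congrArg _ this) }
  exact StrongHomClass.realize_sentence E χ

lemma isMod_comp (χ : (RelLang S ar).Sentence) {M N : Type} (e : M ≃ N)
    {R : Interp S ar N} (h : IsMod χ R) : IsMod χ (fun s (w : Fin (ar s) → M) => R s (e ∘ w)) :=
  (isMod_transport χ e.symm R).1 h

lemma QFm.transport {S₀ : Type} {ar₀ : S₀ → ℕ} (χ : (RelLang S ar).Sentence) {M N : Type}
    (e : M ≃ N) (A : Interp S₀ ar₀ M) (B : Interp S₀ ar₀ N) (h : ∀ s w, A s w ↔ B s (e ∘ w))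
    {α β : Type} (φ : QFm (RelLang S₀ ar₀) S ar α β) : ∀ (v : α → M) (V : β → Interp S ar N),
    @QFm.Holds S ar _ χ M (mkS A) α β φ v (fun j s w => V j s (e ∘ w)) ↔
      @QFm.Holds S ar _ χ N (mkS B) α β φ (e ∘ v) V := by
  induction φ with
  | fo φ =>
    intro v V
    let _ := mkS A
    let _ := mkS B
    let E : M ≃[RelLang S₀ ar₀] N :=
      { e with
        map_fun' := fun f => Empty.elim f
        map_rel' := by
          intro n r x
          show B r.1 _ ↔ A r.1 _
          exact (h _ _).symm }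
    exact (StrongHomClass.realize_formula E φ).symm
  | rel j s t => intro v V; exact Iff.rfl
  | not φ ih => intro v V; exact not_congr (ih v V)
  | and φ ψ ih ih' => intro v V; exact and_congr (ih v V) (ih' v V)
  | ex φ ih =>
    rename_i α β
    intro v V
    show (∃ x : M, _) ↔ (∃ y : N, _)
    have e1 : ∀ x : M, e ∘ (Sum.elim v (fun _ => x) : α ⊕ Unit → M) =
        Sum.elim (e ∘ v) (fun _ => e x) := by
      intro x
      funext i
      rcases i with i | i <;> rfl
    constructor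
    · rintro ⟨x, hx⟩
      refine ⟨e x, ?_⟩
      have h1 := (ih (Sum.elim v (fun _ => x)) V).1 hx
      rwa [e1] at h1
    · rintro ⟨y, hy⟩
      refine ⟨e.symm y, (ih (Sum.elim v (fun _ => e.symm y)) V).2 ?_⟩
      rw [e1, e.apply_symm_apply]
      exact hy
  | exR φ ih =>
    rename_i α β
    intro v V
    show (∃ R : Interp S ar M, _) ↔ (∃ R : Interp S ar N, _)
    constructor
    · rintro ⟨R, hR, hx⟩
      let R' : Interp S ar N := fun s w => R s (e.symm ∘ w)
      have e2 : (fun s (w : Fin (ar s) → M) => R' s (e ∘ w)) = R := by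
        funext s w
        show R s (e.symm ∘ e ∘ w) = R s w
        congr 1
        funext i
        simp
      refine ⟨R', (isMod_transport χ e R).1 hR, ?_⟩
      have h1 := (ih v (Sum.elim V (fun _ => R'))).1
      have e3 : (fun (j : β ⊕ Unit) s (w : Fin (ar s) → M) =>
          (Sum.elim V (fun _ => R') j : Interp S ar N) s (e ∘ w)) =
          Sum.elim (fun j s w => V j s (e ∘ w)) (fun _ => R) := by
        funext j
        rcases j with j | j
        · rfl
        · exact e2
      rw [e3] at h1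
      exact h1 hx
    · rintro ⟨R, hR, hx⟩
      refine ⟨fun s w => R s (e ∘ w), isMod_comp χ e hR, ?_⟩
      have h1 := (ih v (Sum.elim V (fun _ => R))).2 hx
      have e3 : (fun (j : β ⊕ Unit) s (w : Fin (ar s) → M) =>
          (Sum.elim V (fun _ => R) j : Interp S ar N) s (e ∘ w)) =
          Sum.elim (fun j s w => V j s (e ∘ w)) (fun _ => fun s w => R s (e ∘ w)) := by
        funext j
        rcases j with j | j <;> rfl
      rw [e3] at h1
      exact h1

theorem f3 : StmtF3 := by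
  rintro S ar χ P ⟨φ, hφ⟩
  obtain ⟨ax, hax⟩ := Ax_FD
  let ax' : ArL.Formula Empty := ax.relabel (fun i : Fin 0 => i.elim0)
  have hax' : ∀ (M : Type) (R : Interp Bool (fun _ => 3) M) (v : Empty → M),
      @Formula.Realize ArL M (mkS R) _ ax' v ↔ Ax R := by
    intro M R v
    have h1 := @Formula.realize_relabel ArL M (mkS R) _ _ ax (fun i : Fin 0 => i.elim0) v
    exact h1.trans (hax M R _)
  refine ⟨ArL, inferInstance, inferInstance, .and (.fo ax') φ, ?_⟩
  ext n
  refine and_congr Iff.rfl ?_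
  constructor
  · intro h
    refine ⟨Fin n, mkS (arI n), inferInstance, Fintype.card_fin n, ?_, (hφ n _ _).2 h⟩
    exact (hax' (Fin n) (arI n) Empty.elim).2 (arI_st n).ax
  · rintro ⟨M, T, F, hc, h1, h2⟩
    have hT := structure_eq T
    rw [hT] at h1 h2
    have h3 := (hax' M _ Empty.elim).1 h1
    obtain ⟨e, he⟩ := h3.exists_equiv hc
    have h4 := (QFm.transport χ e _ (arI n) he.rel φ Empty.elim (fun j => j.elim)).1
    have e2 : (fun (j : Empty) s (w : Fin (ar s) → M) =>
        ((fun j => j.elim : Empty → Interp S ar (Fin n)) j) s (e ∘ w)) =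
        (Empty.elim : Empty → Interp S ar M) := by
      funext j
      exact j.elim
    rw [e2] at h4
    exact (hφ n _ _).1 (h4 h2)

end Pool.Agent.Helper58.QD
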