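import Pool.Agent.Helper58.QD.F1
import Pool.Agent.Helper31.QD.Elim
import Pool.Agent.Helper83.FM.Few
import Pool.Agent.Helper31.FM.Min

/-!
# The gap theorem for second-order quantifiers: the number of models
-/

set_option autoImplicit false

namespace Pool.Agent.Helper58.QD

open FirstOrder FirstOrder.Language Pool.Agent.Helper20.Spectra Pool.Agent.Helper14.SS
open Pool.Agent.Helper31.QD (Au qd Au.mul eqt)

variable {S : Type} {ar : S → ℕ} {κ : Type}

/-- types of tuples with colours -/
abbrev PT (S : Type) (ar : S → ℕ) (κ : Type) : Type :=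
  ∀ s : S, (Fin (ar s) → κ) → (Fin (ar s) → Fin (ar s) → Prop) → Prop

/-- the structure given by colours -/
def BL (θ : PT S ar κ) {V : Type} (τ : V → κ) : Interp S ar V := fun s w => θ s (τ ∘ w) (eqt w)

lemma term_eq {V : Type} (R : Interp S ar V) {n : ℕ} (t : (RelLang S ar).Term (Empty ⊕ Fin n)) :
    ∃ i : Fin n, ∀ (v : Empty → V) (xs : Fin n → V),
      @Language.Term.realize _ V (mkS R) _ (Sum.elim v xs) t = xs i := by
  cases t with
  | var x =>
    rcases x with x | x
    · exact x.elim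
    · exact ⟨x, fun _ _ => rfl⟩
  | func f _ => exact Empty.elim f

lemma term_eq2 {V V' : Type} (R : Interp S ar V) (R' : Interp S ar V') {n : ℕ}
    (t : (RelLang S ar).Term (Empty ⊕ Fin n)) :
    ∃ i : Fin n, (∀ (v : Empty → V) (xs : Fin n → V),
      @Language.Term.realize _ V (mkS R) _ (Sum.elim v xs) t = xs i) ∧
      ∀ (v : Empty → V') (xs : Fin n → V'),
      @Language.Term.realize _ V' (mkS R') _ (Sum.elim v xs) t = xs i := by
  cases t with
  | var x =>
    rcases x with x | x
    · exact x.elim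
    · exact ⟨x, fun _ _ => rfl, fun _ _ => rfl⟩
  | func f _ => exact Empty.elim f

/-- one step -/
lemma step {V V' : Type} [Finite V] [Finite V'] {τ : V → κ} {τ' : V' → κ} {n : ℕ} (a : V)
    (hc : Nat.card {x // τ x = τ a} = Nat.card {x // τ' x = τ a} ∨
      n + 1 ≤ Nat.card {x // τ' x = τ a})
    {xs : Fin n → V} {xs' : Fin n → V'} (h1 : ∀ i, τ (xs i) = τ' (xs' i))
    (h2 : ∀ i j, xs i = xs j ↔ xs' i = xs' j) :
    ∃ a' : V', τ a = τ' a' ∧ ∀ i, xs i = a ↔ xs' i = a' := by
  classical
  by_cases ha : ∃ i, xs i = a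
  · obtain ⟨i, rfl⟩ := ha
    exact ⟨xs' i, h1 i, fun j => h2 j i⟩
  · push Not at ha
    suffices h : ∃ a' : V', τ' a' = τ a ∧ ∀ i, xs' i ≠ a' by
      obtain ⟨a', h3, h4⟩ := h
      exact ⟨a', h3.symm, fun i => ⟨fun h => absurd h (ha i), fun h => absurd h (h4 i)⟩⟩
    by_contra hcon
    push Not at hcon
    choose g hg using fun x : {x // τ' x = τ a} => hcon x.1 x.2
    have hginj : Function.Injective g := fun x y h => Subtype.ext (by rw [← hg x, ← hg y, h])
    rcases hc with hc | hc
    · -- an injection which misses `a`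
      let f : {x // τ' x = τ a} → {x // τ x = τ a} := fun x => ⟨xs (g x), by
        rw [h1, hg x]
        exact x.2⟩
      have hf : Function.Injective f := by
        intro x y hxy
        have h3 : xs (g x) = xs (g y) := congrArg Subtype.val hxy
        have h4 := (h2 _ _).1 h3
        rw [hg x, hg y] at h4
        exact Subtype.ext h4
      have hs : Function.Surjective f := by
        have := Fintype.ofFinite {x // τ' x = τ a}
        have := Fintype.ofFinite {x // τ x = τ a}
        rw [Nat.card_eq_fintype_card, Nat.card_eq_fintype_card] at hc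
        exact ((Fintype.bijective_iff_injective_and_card f).2 ⟨hf, hc.symm⟩).2
      obtain ⟨x, hx⟩ := hs ⟨a, rfl⟩
      exact ha _ (congrArg Subtype.val hx)
    · have h3 := Nat.card_le_card_of_injective g hginj
      rw [Nat.card_eq_fintype_card (α := Fin n), Fintype.card_fin] at h3
      omega

/-- the Ehrenfeucht game on structures given by colours -/
theorem efc (θ : PT S ar κ) {V V' : Type} [Finite V] [Finite V'] (τ : V → κ) (τ' : V' → κ)
    {n : ℕ} (φ : (RelLang S ar).BoundedFormula Empty n) :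
    (∀ c, Nat.card {x // τ x = c} = Nat.card {x // τ' x = c} ∨
      (n + qd φ ≤ Nat.card {x // τ x = c} ∧ n + qd φ ≤ Nat.card {x // τ' x = c})) →
    ∀ (v : Empty → V) (v' : Empty → V') (xs : Fin n → V) (xs' : Fin n → V'),
      (∀ i, τ (xs i) = τ' (xs' i)) → (∀ i j, xs i = xs j ↔ xs' i = xs' j) →
      (@Language.BoundedFormula.Realize _ V (mkS (BL θ τ)) _ _ φ v xs ↔
        @Language.BoundedFormula.Realize _ V' (mkS (BL θ τ')) _ _ φ v' xs') := by
  induction φ with
  | falsum => intro _ _ _ _ _ _ _; exact Iff.rfl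
  | @equal n t u =>
    intro _ v v' xs xs' h1 h2
    obtain ⟨i, hi, hi'⟩ := term_eq2 (BL θ τ) (BL θ τ') t
    obtain ⟨j, hj, hj'⟩ := term_eq2 (BL θ τ) (BL θ τ') u
    show (@Language.Term.realize _ V (mkS (BL θ τ)) _ (Sum.elim v xs) t =
      @Language.Term.realize _ V (mkS (BL θ τ)) _ (Sum.elim v xs) u) ↔
      (@Language.Term.realize _ V' (mkS (BL θ τ')) _ (Sum.elim v' xs') t =
      @Language.Term.realize _ V' (mkS (BL θ τ')) _ (Sum.elim v' xs') u)
    rw [hi, hi', hj, hj']
    exact h2 i j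
  | @rel n l r ts =>
    intro _ v v' xs xs' h1 h2
    choose f hf hf' using fun i => term_eq2 (BL θ τ) (BL θ τ') (ts i)
    show BL θ τ r.1 (fun i => @Language.Term.realize _ V (mkS (BL θ τ)) _ (Sum.elim v xs)
        (ts (Fin.cast r.2 i))) ↔
      BL θ τ' r.1 (fun i => @Language.Term.realize _ V' (mkS (BL θ τ')) _ (Sum.elim v' xs')
        (ts (Fin.cast r.2 i)))
    have e1 : (fun i => @Language.Term.realize _ V (mkS (BL θ τ)) _ (Sum.elim v xs)
        (ts (Fin.cast r.2 i))) = fun i => xs (f (Fin.cast r.2 i)) := funext fun i => hf _ v xs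
    have e2 : (fun i => @Language.Term.realize _ V' (mkS (BL θ τ')) _ (Sum.elim v' xs')
        (ts (Fin.cast r.2 i))) = fun i => xs' (f (Fin.cast r.2 i)) := funext fun i => hf' _ v' xs'
    rw [e1, e2]
    show θ r.1 (τ ∘ fun i => xs (f (Fin.cast r.2 i))) (eqt fun i => xs (f (Fin.cast r.2 i))) ↔
      θ r.1 (τ' ∘ fun i => xs' (f (Fin.cast r.2 i))) (eqt fun i => xs' (f (Fin.cast r.2 i)))
    have e3 : (τ ∘ fun i => xs (f (Fin.cast r.2 i))) = τ' ∘ fun i => xs' (f (Fin.cast r.2 i)) :=
      funext fun i => h1 _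
    have e4 : (eqt fun i => xs (f (Fin.cast r.2 i))) = eqt fun i => xs' (f (Fin.cast r.2 i)) :=
      funext fun i => funext fun j => propext (h2 _ _)
    rw [e3, e4]
  | imp f g ihf ihg =>
    intro hc v v' xs xs' h1 h2
    have h3 : qd (f.imp g) = max (qd f) (qd g) := rfl
    rw [h3] at hc
    exact imp_congr (ihf (fun c => (hc c).imp id fun h => ⟨by omega, by omega⟩) v v' xs xs' h1 h2)
      (ihg (fun c => (hc c).imp id fun h => ⟨by omega, by omega⟩) v v' xs xs' h1 h2)
  | @all n f ih =>
    intro hc v v' xs xs' h1 h2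
    have h3 : qd f.all = qd f + 1 := rfl
    rw [h3] at hc
    have key : ∀ (a : V) (a' : V'), τ a = τ' a' → (∀ i, xs i = a ↔ xs' i = a') →
        (@Language.BoundedFormula.Realize _ V (mkS (BL θ τ)) _ _ f v (Fin.snoc xs a) ↔
        @Language.BoundedFormula.Realize _ V' (mkS (BL θ τ')) _ _ f v' (Fin.snoc xs' a')) := by
      intro a a' h4 h5
      refine ih (fun c => (hc c).imp id fun h => ⟨by omega, by omega⟩) v v' _ _ ?_ ?_
      · intro i
        refine Fin.lastCases ?_ (fun j => ?_) i
        · simpa using h4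
        · simpa using h1 j
      · intro i j
        refine Fin.lastCases ?_ (fun i => ?_) i
        · refine Fin.lastCases ?_ (fun j => ?_) j
          · simp
          · simp only [Fin.snoc_last, Fin.snoc_castSucc]
            exact ⟨fun h => ((h5 j).1 h.symm).symm, fun h => ((h5 j).2 h.symm).symm⟩
        · refine Fin.lastCases ?_ (fun j => ?_) j
          · simp only [Fin.snoc_last, Fin.snoc_castSucc]
            exact h5 i
          · simp only [Fin.snoc_castSucc]
            exact h2 i j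
    show (∀ a : V, @Language.BoundedFormula.Realize _ V (mkS (BL θ τ)) _ _ f v (Fin.snoc xs a)) ↔
      (∀ a : V', @Language.BoundedFormula.Realize _ V' (mkS (BL θ τ')) _ _ f v' (Fin.snoc xs' a))
    constructor
    · intro h a'
      obtain ⟨a, h4, h5⟩ := step (τ := τ') (τ' := τ) a'
        ((hc (τ' a')).imp Eq.symm fun h => by omega) (fun i => (h1 i).symm)
        (fun i j => (h2 i j).symm)
      exact (key a a' h4.symm fun i => (h5 i).symm).1 (h a)
    · intro h a
      obtain ⟨a', h4, h5⟩ := step (τ := τ) (τ' := τ') a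
        ((hc (τ a)).imp id fun h => by omega) h1 h2
      exact (key a a' h4 h5).2 (h a')

lemma eqt_inj {ι V V' : Type} {f : V → V'} (hf : Function.Injective f) (w : ι → V) :
    eqt (f ∘ w) = eqt w :=
  funext fun _ => funext fun _ => propext hf.eq_iff

lemma au_color (θ : PT S ar κ) {V : Type} [DecidableEq V] {τ : V → κ} {x y : V}
    (h : τ x = τ y) : Au (BL θ τ) (Equiv.swap x y) := by
  intro s w
  show θ s (τ ∘ (Equiv.swap x y ∘ w)) (eqt (Equiv.swap x y ∘ w)) ↔ θ s (τ ∘ w) (eqt w)
  rw [eqt_inj (Equiv.swap x y).injective]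
  have e : τ ∘ (Equiv.swap x y ∘ w) = τ ∘ w := by
    funext i
    show τ (Equiv.swap x y (w i)) = τ (w i)
    by_cases h1 : w i = x
    · rw [h1, Equiv.swap_apply_left, h]
    · by_cases h2 : w i = y
      · rw [h2, Equiv.swap_apply_right, h]
      · rw [Equiv.swap_apply_of_ne_of_ne h1 h2]
  rw [e]

lemma au_trans {V : Type} [DecidableEq V] {R : Interp S ar V} {x y z : V}
    (h1 : Au R (Equiv.swap x y)) (h2 : Au R (Equiv.swap y z)) : Au R (Equiv.swap x z) := by
  by_cases hxy : x = y
  · rw [hxy]; exact h2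
  · by_cases hxz : x = z
    · rw [hxz, Equiv.swap_self]
      exact fun _ _ => Iff.rfl
    · have h5 : Equiv.swap x z = Equiv.swap y z * Equiv.swap x y * Equiv.swap y z := by
        rw [Equiv.swap_mul_swap_mul_swap hxy hxz]
        exact Equiv.swap_comm _ _
      rw [h5]
      exact (h2.mul h1).mul h2

/-- supports -/
lemma sup_of_small [Finite κ] (θ : PT S ar κ) {n : ℕ} (τ : Fin n → κ) (q : ℕ)
    (h : ∀ x y, q ≤ Nat.card {z // τ z = τ x} → q ≤ Nat.card {z // τ z = τ y} →
      Au (BL θ τ) (Equiv.swap x y)) :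
    ∃ C : Finset (Fin n), C.card ≤ Nat.card κ * q ∧ SupI (BL θ τ) C := by
  classical
  have := Fintype.ofFinite κ
  obtain ⟨C, hC⟩ : ∃ C, C = Finset.univ.filter (fun x => Nat.card {z // τ z = τ x} < q) := ⟨_, rfl⟩
  have hC' : ∀ x, x ∈ C ↔ Nat.card {z // τ z = τ x} < q := fun x => by rw [hC]; simp
  refine ⟨C, ?_, ?_⟩
  · have h1 : C.card ≤ q * (C.image τ).card := by
      refine Finset.card_le_mul_card_image C q (fun c hc => ?_)
      obtain ⟨x, hx, rfl⟩ := Finset.mem_image.1 hc
      have h2 : (C.filter (fun z => τ z = τ x)).card ≤ Nat.card {z // τ z = τ x} := by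
        rw [Nat.card_eq_fintype_card, Fintype.card_subtype]
        exact Finset.card_le_card (Finset.filter_subset_filter _ (Finset.subset_univ _))
      have h3 := (hC' x).1 hx
      omega
    have h2 : (C.image τ).card ≤ Nat.card κ := by
      rw [Nat.card_eq_fintype_card]
      exact Finset.card_le_univ _
    calc C.card ≤ q * (C.image τ).card := h1
      _ ≤ q * Nat.card κ := Nat.mul_le_mul_left q h2
      _ = Nat.card κ * q := mul_comm _ _
  · have key : ∀ π : Equiv.Perm {x // x ∉ C}, Au (BL θ τ) (Equiv.Perm.ofSubtype π) := by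
      intro π
      induction π using Equiv.Perm.swap_induction_on with
      | one =>
        rw [map_one]
        exact fun _ _ => Iff.rfl
      | swap_mul π a b hab ih =>
        rw [map_mul, Equiv.Perm.ofSubtype_swap_eq]
        refine (h a b ?_ ?_).mul ih
        · by_contra hcon
          exact a.2 ((hC' _).2 (by omega))
        · by_contra hcon
          exact b.2 ((hC' _).2 (by omega))
    intro s σ hσ t
    have h1 : ∀ x, σ x ∉ C ↔ x ∉ C := by
      intro x
      constructor
      · intro h2 h3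
        rw [hσ x h3] at h2
        exact h2 h3
      · intro h2 h3
        have h4 := σ.injective (hσ (σ x) h3)
        rw [h4] at h3
        exact h2 h3
    have h2 : ∀ I : DecidablePred (fun x => x ∉ C),
        @Equiv.Perm.ofSubtype _ (fun x => x ∉ C) I (σ.subtypePerm h1) = σ := by
      intro I
      exact Equiv.Perm.ofSubtype_subtypePerm _ (fun x hx hxC => hx (hσ x hxC))
    have h3 := key (σ.subtypePerm h1)
    rw [h2] at h3
    exact h3 s t

/-- two large colours which are not exchangeable -/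
theorem gap2 [Finite S] (χ : (RelLang S ar).Sentence) (θ : PT S ar κ) {n₀ : ℕ} (τ : Fin n₀ → κ)
    (hR : IsMod χ (BL θ τ)) {x y : Fin n₀} (hx : qd χ ≤ Nat.card {z // τ z = τ x})
    (hy : qd χ ≤ Nat.card {z // τ z = τ y}) (hxy : ¬ Au (BL θ τ) (Equiv.swap x y)) (j : ℕ) :
    2 ^ j ≤ count χ (n₀ + j) := by
  classical
  let τY : Finset (Fin j) → Fin n₀ ⊕ Fin j → κ := fun Y =>
    Sum.elim τ (fun i => if i ∈ Y then τ x else τ y)
  have hres : ∀ Y s (t : Fin (ar s) → Fin n₀), BL θ (τY Y) s (Sum.inl ∘ t) ↔ BL θ τ s t := by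
    intro Y s t
    show θ s (τY Y ∘ (Sum.inl ∘ t)) (eqt (Sum.inl ∘ t)) ↔ θ s (τ ∘ t) (eqt t)
    rw [eqt_inj Sum.inl_injective]
    exact Iff.rfl
  have hmod : ∀ Y, IsMod χ (BL θ (τY Y)) := by
    intro Y
    have hle : ∀ c, Nat.card {z // τ z = c} ≤ Nat.card {z // τY Y z = c} := by
      intro c
      exact Nat.card_le_card_of_injective
        (fun z : {z // τ z = c} => (⟨Sum.inl z.1, z.2⟩ : {z // τY Y z = c}))
        (fun z z' h => Subtype.ext (Sum.inl_injective (congrArg Subtype.val h)))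
    have h1 := efc θ τ (τY Y) (n := 0) χ (fun c => by
      by_cases hcx : c = τ x
      · right
        have := hle c
        rw [hcx] at this ⊢
        omega
      · by_cases hcy : c = τ y
        · right
          have := hle c
          rw [hcy] at this ⊢
          omega
        · left
          refine Nat.card_congr (Equiv.ofBijective
            (fun z : {z // τ z = c} => (⟨Sum.inl z.1, z.2⟩ : {z // τY Y z = c})) ⟨?_, ?_⟩)
          · exact fun z z' h => Subtype.ext (Sum.inl_injective (congrArg Subtype.val h))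
          · rintro ⟨z | i, hz⟩
            · exact ⟨⟨z, hz⟩, rfl⟩
            · exfalso
              have hz' : (if i ∈ Y then τ x else τ y) = c := hz
              split_ifs at hz'
              · exact hcx hz'.symm
              · exact hcy hz'.symm)
      default default default default (fun i => i.elim0) (fun i => i.elim0)
    exact h1.1 hR
  have hY : ∀ Y i, i ∈ Y ↔ Au (BL θ (τY Y)) (Equiv.swap (Sum.inl x) (Sum.inr i)) := by
    intro Y i
    constructor
    · intro hi
      apply au_color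
      show τ x = if i ∈ Y then τ x else τ y
      rw [if_pos hi]
    · intro h
      by_contra hi
      apply hxy
      have h1 : Au (BL θ (τY Y)) (Equiv.swap (Sum.inr i) (Sum.inl y)) := by
        apply au_color
        show (if i ∈ Y then τ x else τ y) = τ y
        rw [if_neg hi]
      have h2 := au_trans h h1
      intro s t
      rw [← hres Y, ← hres Y]
      have e : (Sum.inl ∘ (Equiv.swap x y ∘ t) : Fin (ar s) → Fin n₀ ⊕ Fin j) =
          Equiv.swap (Sum.inl x) (Sum.inl y) ∘ (Sum.inl ∘ t) := by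
        funext a
        show Sum.inl (Equiv.swap x y (t a)) = Equiv.swap (Sum.inl x) (Sum.inl y) (Sum.inl (t a))
        by_cases h3 : t a = x
        · rw [h3, Equiv.swap_apply_left, Equiv.swap_apply_left]
        · by_cases h4 : t a = y
          · rw [h4, Equiv.swap_apply_right, Equiv.swap_apply_right]
          · rw [Equiv.swap_apply_of_ne_of_ne h3 h4, Equiv.swap_apply_of_ne_of_ne
              (fun h => h3 (Sum.inl_injective h)) (fun h => h4 (Sum.inl_injective h))]
      rw [e]
      exact h2 s _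
  let e : Fin n₀ ⊕ Fin j ≃ Fin (n₀ + j) := finSumFinEquiv
  let F : Finset (Fin j) → {R : Interp S ar (Fin (n₀ + j)) // IsMod χ R} := fun Y =>
    ⟨fun s w => BL θ (τY Y) s (e.symm ∘ w), (isMod_transport χ e _).1 (hmod Y)⟩
  have hF : Function.Injective F := by
    intro Y Y' h
    have h1 : (fun s (w : Fin (ar s) → Fin (n₀ + j)) => BL θ (τY Y) s (e.symm ∘ w)) =
        fun s w => BL θ (τY Y') s (e.symm ∘ w) := congrArg Subtype.val h
    have h2 : BL θ (τY Y) = BL θ (τY Y') := by
      funext s w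
      have h3 := congrFun (congrFun h1 s) (e ∘ w)
      have h4 : (e.symm ∘ (e ∘ w) : Fin (ar s) → Fin n₀ ⊕ Fin j) = w := by
        funext i
        exact e.symm_apply_apply (w i)
      have h5 : BL θ (τY Y) s (e.symm ∘ (e ∘ w)) = BL θ (τY Y') s (e.symm ∘ (e ∘ w)) := h3
      rwa [h4] at h5
    ext i
    rw [hY Y i, hY Y' i, h2]
  have : Finite (Interp S ar (Fin (n₀ + j))) := Pi.finite
  have h1 := Nat.card_le_card_of_injective F hF
  rw [Nat.card_eq_fintype_card (α := Finset (Fin j)), Fintype.card_finset, Fintype.card_fin] at h1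
  exact h1

open Pool.Agent.Helper83.FM (NT exists_reps atom_congr pad exists_ind many_models)

lemma bl_of_few {n r : ℕ} {R : Interp S ar (Fin n)}
    (hr : ∀ T : Finset (Fin n), NT R T → T.card ≤ r) :
    ∃ (θ : PT S ar (Fin r)) (τ : Fin n → Fin r), R = BL θ τ := by
  classical
  obtain ⟨T, hT, hrep⟩ := exists_reps R
  choose g hg1 hg2 using hrep
  obtain ⟨f⟩ : Nonempty (T ↪ Fin r) := by
    apply Function.Embedding.nonempty_of_card_le
    rw [Fintype.card_coe, Fintype.card_fin]
    exact hr T hT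
  obtain ⟨τ, hτ⟩ : ∃ τ : Fin n → Fin r, ∀ x, τ x = f ⟨g x, hg1 x⟩ := ⟨_, fun _ => rfl⟩
  have htw : ∀ x y, τ x = τ y → Au R (Equiv.swap x y) := by
    intro x y hxy
    rw [hτ, hτ] at hxy
    have h1 : g x = g y := congrArg Subtype.val (f.injective hxy)
    have h2 := hg2 y
    rw [← h1] at h2
    exact Pool.Agent.Helper83.FM.tw_trans (hg2 x) (Pool.Agent.Helper83.FM.tw_symm h2)
  refine ⟨fun s a e => ∃ w : Fin (ar s) → Fin n, τ ∘ w = a ∧ eqt w = e ∧ R s w, τ, ?_⟩
  funext s w
  apply propext
  constructor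
  · intro h
    exact ⟨w, rfl, rfl, h⟩
  · rintro ⟨w', h3, h4, h5⟩
    exact (atom_congr _ w' w rfl (fun i => htw _ _ (congrFun h3 i))
      (fun i j => iff_of_eq (congrFun (congrFun h4 i) j))).1 h5

/-- twins of the padded relations -/
lemma tw_of_padE {n k : ℕ} (hk : ∀ s, ar s ≤ k) {R : Interp S ar (Fin n)} {x y : Fin n}
    (h : Pool.Agent.Helper83.FM.Tw (pad hk R) x y) : Au R (Equiv.swap x y) := by
  intro s t
  have h1 := h s (fun j => if hj : (j : ℕ) < ar s then t ⟨j, hj⟩ else x)
  unfold pad at h1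
  have e1 : (fun i : Fin (ar s) => (fun j : Fin k => if hj : (j : ℕ) < ar s then t ⟨j, hj⟩ else x)
      (Fin.castLE (hk s) i)) = t := by
    funext i
    simp
  have e2 : (fun i : Fin (ar s) => (Equiv.swap x y ∘ fun j : Fin k => if hj : (j : ℕ) < ar s
      then t ⟨j, hj⟩ else x) (Fin.castLE (hk s) i)) = Equiv.swap x y ∘ t := by
    funext i
    simp
  rw [e1, e2] at h1
  exact h1

/-- the sharp gap -/
theorem sharp_gap [Finite S] (χ : (RelLang S ar).Sentence) (hb : ¬ Bdd χ) :
    ∃ c : ℕ, ∀ N : ℕ, ∃ n, N ≤ n ∧ 2 ^ n ≤ 2 ^ c * count χ n := by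
  classical
  obtain ⟨k, hk⟩ : ∃ k, ∀ s, ar s ≤ k := by
    have := Fintype.ofFinite S
    exact ⟨Finset.univ.sup ar, fun s => Finset.le_sup (f := ar) (Finset.mem_univ s)⟩
  by_cases h : ∀ r, ∃ (n : ℕ) (R : Interp S ar (Fin n)) (T : Finset (Fin n)), IsMod χ R ∧
      r ≤ T.card ∧ ∀ x ∈ T, ∀ y ∈ T, x ≠ y → ¬ Au R (Equiv.swap x y)
  · refine ⟨0, fun N => ?_⟩
    obtain ⟨q, hq⟩ : ∃ q, q = k + qd χ + 3 := ⟨_, rfl⟩
    obtain ⟨D, hD⟩ : ∃ D, D = 2 * k * k + k + q := ⟨_, rfl⟩
    obtain ⟨n, hn, R, hR, hcl⟩ := Pool.Agent.Helper31.FM.min_model hk h (max N (9 ^ D))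
    have h9 : 9 ^ D ≤ n := (le_max_right _ _).trans hn
    refine ⟨n, (le_max_left _ _).trans hn, ?_⟩
    obtain ⟨A, hA, hAn⟩ := exists_ind (pad hk R) q (by omega) (fun C hC => by
      rw [hq]
      exact hcl C fun x hx y hy => tw_of_padE hk (hC x hx y hy))
    rw [Fintype.card_fin, ← hD] at hAn
    have h1 := many_models hk hR hA hAn h9
    rw [pow_zero, one_mul]
    have hD0 : 2 * D ≠ 0 := by omega
    rw [← Nat.pow_le_pow_iff_left hD0]
    refine le_trans ?_ h1
    calc (2 ^ n) ^ (2 * D) = (4 ^ D) ^ n := by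
          rw [← pow_mul, ← pow_mul, show (4 : ℕ) = 2 ^ 2 by norm_num, ← pow_mul]
          ring_nf
      _ ≤ n ^ n := Nat.pow_le_pow_left ((Nat.pow_le_pow_left (by norm_num) D).trans h9) n
  · push Not at h
    obtain ⟨r, hr⟩ := h
    have hr' : ∀ (n : ℕ) (R : Interp S ar (Fin n)) (T : Finset (Fin n)), IsMod χ R → NT R T →
        T.card ≤ r := by
      intro n R T hR hT
      by_contra hcon
      push Not at hcon
      obtain ⟨x, hx, y, hy, hxy, h1⟩ := hr n R T hR hcon.le
      exact hT x hx y hy hxy h1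
    unfold Bdd at hb
    push Not at hb
    obtain ⟨n₀, R, hR, hns⟩ := hb (Nat.card (Fin r) * qd χ)
    obtain ⟨θ, τ, rfl⟩ := bl_of_few (fun T hT => hr' n₀ R T hR hT)
    have hex : ∃ x y, qd χ ≤ Nat.card {z // τ z = τ x} ∧ qd χ ≤ Nat.card {z // τ z = τ y} ∧
        ¬ Au (BL θ τ) (Equiv.swap x y) := by
      by_contra hcon
      push Not at hcon
      obtain ⟨C', h1, h2⟩ := sup_of_small θ τ (qd χ) hcon
      exact hns C' h1 h2
    obtain ⟨x, y, hx, hy, hxy⟩ := hex
    refine ⟨n₀, fun N => ⟨n₀ + N, by omega, ?_⟩⟩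
    rw [pow_add]
    exact Nat.mul_le_mul_left _ (gap2 χ θ τ hR hx hy hxy N)

end Pool.Agent.Helper58.QD
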