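import Pool.Agent.Helper58.QD.F1
import Pool.Agent.Helper38.QD.InvL2
import Pool.Agent.Helper31.QD.Shrink
import Pool.Agent.Helper31.QD.Elim
import Pool.Agent.Helper83.QG.Poly
import Pool.Agent.Helper83.QG.Excl
import Pool.Agent.Helper83.QG.EvPoly
import Pool.Agent.Helper6.QD.F2L
import Pool.Agent.Helper58.QD.Gap
import Pool.Agent.Helper40.QD.SpecTq
import Pool.Agent.Helper20.QG.H4

/-!
# The gap theorem for second-order quantifiers: assembly
-/

set_option autoImplicit false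

namespace Pool.Agent.Helper58.QD

open FirstOrder FirstOrder.Language Pool.Agent.Helper20.Spectra Pool.Agent.Helper14.SS
open Pool.Agent.Helper38.QD (TTq)

/-- first-order spectra are spectra of the larger logic -/
theorem spec_qM {S : Type} {ar : S → ℕ} (χ : (RelLang S ar).Sentence) {A : Set ℕ}
    (hA : IsSpectrum A) : QSpectrum χ A := by
  obtain ⟨L, hF, hR, φ, hA⟩ := hA
  refine ⟨L, hF, hR, .fo φ, ?_⟩
  rw [hA]
  ext n
  refine and_congr Iff.rfl ?_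
  refine exists_congr (fun M => exists_congr (fun T => exists_congr (fun F =>
    and_congr Iff.rfl ?_)))
  show @Formula.Realize L M T _ φ default ↔ @Formula.Realize L M T _ φ Empty.elim
  have e : (default : Empty → M) = Empty.elim := by
    funext i
    exact i.elim
  rw [e]

/-- the translation of monadic second-order logic over arithmetic -/
theorem transM (S : Type) [Finite S] (ar : S → ℕ) (χ : (RelLang S ar).Sentence) (q : ℕ)
    (hq : 2 ≤ q) (φ : SFm ArL 0 0) : QSpectrum χ (TTq χ q ∩ arithS (fun n => n) φ) := by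
  obtain ⟨K, hK⟩ := Pool.Agent.Helper6.QD.codesL χ (q := q) (by omega)
  obtain ⟨P, hP, hP'⟩ := f1 S ar χ K (fun n => n) φ
  have hI := Pool.Agent.Helper38.QD.stmtInvL S ar χ q
  have h3 := f3 S ar χ (fun n => n ∈ TTq χ q ∧ P n)
    ((Pool.Agent.Helper38.QD.stmtF2L S ar χ q hq).and hP)
  have e : {n | 1 ≤ n ∧ (n ∈ TTq χ q ∧ P n)} = TTq χ q ∩ arithS (fun n => n) φ := by
    ext n
    constructor
    · rintro ⟨h1, h4, h5⟩
      exact ⟨h4, h1, (hP' n (hK n (hI n h4))).1 h5⟩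
    · rintro ⟨h4, h1, h5⟩
      exact ⟨h1, h4, (hP' n (hK n (hI n h4))).2 h5⟩
  rw [e] at h3
  exact h3

/-- exponential growth is not polynomial -/
theorem exclc {f : ℕ → ℕ} (h : ∃ c : ℕ, ∀ N : ℕ, ∃ n, N ≤ n ∧ 2 ^ n ≤ 2 ^ c * f n) :
    ¬ ∃ c, ∀ n, 2 ≤ n → f n ≤ n ^ c := by
  obtain ⟨c, hc⟩ := h
  refine Pool.Agent.Helper83.QG.stmtExcl f (fun N => ?_)
  obtain ⟨n, h1, h3⟩ := hc (max N (2 * c + 4))
  have h4 : 2 * c + 4 ≤ n := (le_max_right _ _).trans h1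
  refine ⟨n, n - c, (le_max_left _ _).trans h1, ?_, ?_⟩
  · have h5 : 2 ≤ n - c := by omega
    have h6 : 2 ^ 5 ≤ (n - c) ^ 5 := Nat.pow_le_pow_left h5 5
    calc n ≤ 32 * (n - c) := by omega
      _ ≤ (n - c) ^ 5 * (n - c) := Nat.mul_le_mul_right _ (by omega)
      _ = (n - c) ^ 6 := by ring
  · have h5 : 2 ^ n = 2 ^ c * 2 ^ (n - c) := by
      rw [← pow_add]
      congr 1
      omega
    rw [h5] at h3
    exact Nat.le_of_mul_le_mul_left h3 (by positivity)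

/-- the gap theorem -/
theorem mainM (S : Type) [Finite S] (ar : S → ℕ) (χ : (RelLang S ar).Sentence) :
    ((∃ c, ∀ n, 2 ≤ n → count χ n ≤ n ^ c) →
      (∃ (d n₀ : ℕ) (a : ℕ → ℕ), ∀ n, n₀ ≤ n →
        count χ n = ∑ j ∈ Finset.range (d + 1), a j * n.choose j) ∧
      (∀ (L : FirstOrder.Language.{0, 0}) (α : Type) (φ : QFm L S ar α Empty),
        ∃ ψ : L.Formula α, ∀ (M : Type) [L.Structure M] [Finite M] (v : α → M),
          φ.Holds χ v Empty.elim ↔ ψ.Realize v) ∧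
      ∀ A : Set ℕ, QSpectrum χ A ↔ IsSpectrum A) ∧
    ((¬ ∃ c, ∀ n, 2 ≤ n → count χ n ≤ n ^ c) →
      (∃ c : ℕ, ∀ N : ℕ, ∃ n, N ≤ n ∧ 2 ^ n ≤ 2 ^ c * count χ n) ∧
      (∃ A : Set ℕ, QSpectrum χ A ∧ ¬ PolyHier A) ∧
      ∃ T : Set ℕ, IsSpectrum T ∧ T.Infinite ∧ ∀ φ : SFm ArL 0 0,
        QSpectrum χ (T ∩ arithS (fun n => n) φ)) ∧
    ((∀ A : Set ℕ, QSpectrum χ A ↔ IsRudimentary A ∧ 0 ∉ A) ↔
      (∃ c, ∀ n, 2 ≤ n → count χ n ≤ n ^ c) ∧
        ∀ A : Set ℕ, IsSpectrum A ↔ IsRudimentary A ∧ 0 ∉ A) := by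
  have hB : Bdd χ → (∃ (d n₀ : ℕ) (a : ℕ → ℕ), ∀ n, n₀ ≤ n →
        count χ n = ∑ j ∈ Finset.range (d + 1), a j * n.choose j) ∧
      (∀ (L : FirstOrder.Language.{0, 0}) (α : Type) (φ : QFm L S ar α Empty),
        ∃ ψ : L.Formula α, ∀ (M : Type) [L.Structure M] [Finite M] (v : α → M),
          φ.Holds χ v Empty.elim ↔ ψ.Realize v) ∧
      ∀ A : Set ℕ, QSpectrum χ A ↔ IsSpectrum A := by
    intro hb
    have hElim := Pool.Agent.Helper31.QD.elim S ar χ hb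
    refine ⟨Pool.Agent.Helper83.QG.stmtEvPoly S ar χ hb, hElim, fun A => ⟨?_, spec_qM χ⟩⟩
    rintro ⟨L, hF, hR, φ, rfl⟩
    obtain ⟨ψ, hψ⟩ := hElim L Empty φ
    refine ⟨L, hF, hR, ψ, ?_⟩
    ext n
    refine and_congr Iff.rfl ?_
    refine exists_congr (fun M => exists_congr (fun T => exists_congr (fun F =>
      and_congr Iff.rfl ?_)))
    have h3 := @hψ M T (Finite.of_fintype M) Empty.elim
    have e : (default : Empty → M) = Empty.elim := by
      funext i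
      exact i.elim
    show _ ↔ @Formula.Realize L M T _ ψ default
    rw [e]
    exact h3
  have hU : ¬ Bdd χ → (∃ c : ℕ, ∀ N : ℕ, ∃ n, N ≤ n ∧ 2 ^ n ≤ 2 ^ c * count χ n) ∧
      (∃ A : Set ℕ, QSpectrum χ A ∧ ¬ PolyHier A) ∧
      ∃ T : Set ℕ, IsSpectrum T ∧ T.Infinite ∧ ∀ φ : SFm ArL 0 0,
        QSpectrum χ (T ∩ arithS (fun n => n) φ) := by
    intro hb
    have h3 := Pool.Agent.Helper31.QD.shrink S ar χ hb
    obtain ⟨q, hq, h4⟩ := Pool.Agent.Helper38.QD.stmtInfL' S ar χ h3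
    have h6 := Pool.Agent.Helper40.QD.specTq χ (q₀ := q) (by omega)
    refine ⟨sharp_gap χ hb, ?_, TTq χ q, h6, h4, transM S ar χ q hq⟩
    by_cases hQ : ∀ A : Set ℕ, IsSpectrum A → PolyHier A
    · obtain ⟨φ, hφ⟩ := Pool.Agent.Helper20.QG.diagL (TTq χ q) h6 h4 hQ
      exact ⟨_, transM S ar χ q hq φ, hφ⟩
    · push Not at hQ
      obtain ⟨A, hA, hA'⟩ := hQ
      exact ⟨A, spec_qM χ hA, hA'⟩
  have hbc : Bdd χ ↔ ∃ c, ∀ n, 2 ≤ n → count χ n ≤ n ^ c := by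
    constructor
    · exact Pool.Agent.Helper83.QG.stmtPoly S ar χ
    · intro hc
      by_contra hb
      exact exclc (hU hb).1 hc
  rw [← hbc]
  refine ⟨hB, hU, ?_⟩
  constructor
  · intro h
    have hb : Bdd χ := by
      by_contra hb
      obtain ⟨A, hA, hA'⟩ := (hU hb).2.1
      exact hA' (Pool.Agent.Helper14.QG.rudPH A ((h A).1 hA).1)
    exact ⟨hb, fun A => ((hB hb).2.2 A).symm.trans (h A)⟩
  · rintro ⟨hb, h⟩ A
    exact ((hB hb).2.2 A).trans (h A)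

end Pool.Agent.Helper58.QD
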