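import Pool.Agent.Helper58.QD.Stub
import Pool.Agent.Helper14.SS.Syn

/-!
# Definability over initial segments with a second-order quantifier
-/

set_option autoImplicit false

namespace Pool.Agent.Helper58.QD

open FirstOrder FirstOrder.Language Pool.Agent.Helper20.Spectra Pool.Agent.Helper14.SS

variable {S : Type} {ar : S → ℕ}

/-- predicates of `n`, elements and interpretations, over `({0, ..., n - 1}, +, ·)` -/
abbrev QP (S : Type) (ar : S → ℕ) (α β : Type) :=
  ∀ n : ℕ, (α → Fin n) → (β → Interp S ar (Fin n)) → Prop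

/-- definable over `({0, ..., n - 1}, +, ·)` with the quantifier for `χ` -/
def Qdf (χ : (RelLang S ar).Sentence) (α β : Type) (P : QP S ar α β) : Prop :=
  ∃ φ : QFm ArL S ar α β, ∀ (n : ℕ) (v : α → Fin n) (V : β → Interp S ar (Fin n)),
    @QFm.Holds S ar ArL χ (Fin n) (mkS (arI n)) α β φ v V ↔ P n v V

/-- A finite family of codes for sets: `dc c n p V` is the set with the code `c`, the element
parameters `p` and the models `V`; `gd` says that the code is well formed. -/
structure Codes (χ : (RelLang S ar).Sentence) where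
  /-- kinds of codes -/
  Cd : Type
  /-- element parameters -/
  E : Type
  /-- interpretations -/
  Rh : Type
  finCd : Finite Cd
  finE : Finite E
  finRh : Finite Rh
  /-- the coded set -/
  dc : Cd → ∀ n : ℕ, (E → Fin n) → (Rh → Interp S ar (Fin n)) → Fin n → Prop
  /-- well formed codes -/
  gd : Cd → ∀ n : ℕ, (E → Fin n) → (Rh → Interp S ar (Fin n)) → Prop
  hdc : ∀ c, Qdf χ (E ⊕ Unit) Rh (fun n v V => dc c n (v ∘ Sum.inl) V (v (Sum.inr ())))
  hgd : ∀ c, Qdf χ E Rh (fun n v V => gd c n v V)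

/-- for `n` the coded sets are exactly the sets with at most `b` elements -/
def Codes.Good {χ : (RelLang S ar).Sentence} (K : Codes χ) (n b : ℕ) : Prop :=
  ∀ X : Finset (Fin n), X.card ≤ b ↔ ∃ (c : K.Cd) (p : K.E → Fin n)
    (V : K.Rh → Interp S ar (Fin n)), (∀ j, IsMod χ (V j)) ∧ K.gd c n p V ∧
      ∀ x, x ∈ X ↔ K.dc c n p V x

/-- F1 (helper58) -/
def StmtF1 : Prop := ∀ (S : Type) [Finite S] (ar : S → ℕ) (χ : (RelLang S ar).Sentence)
  (K : Codes χ) (s : ℕ → ℕ) (φ : SFm ArL 0 0), ∃ P : ℕ → Prop,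
    Qdf χ Empty Empty (fun n _ _ => P n) ∧ ∀ n, K.Good n (s n) →
      (P n ↔ @SFm.Holds ArL (Fin n) (mkS (arI n)) (s n) 0 0 φ Fin.elim0 Fin.elim0)

/-- F2 (helper12) -/
def StmtF2 : Prop := ∀ (S : Type) [Finite S] (ar : S → ℕ) (χ : (RelLang S ar).Sentence),
  (∀ n ∈ TT χ, ∀ X : Finset (Fin n), X.card ≤ sr n → Dec χ X) →
  ∃ K : Codes χ, ∀ n ∈ TT χ, K.Good n (sr n)

/-- F2' (helper12) -/
def StmtF2' : Prop := ∀ (S : Type) [Finite S] (ar : S → ℕ) (χ : (RelLang S ar).Sentence),
  Qdf χ Empty Empty (fun n _ _ => n ∈ TT χ)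

/-- F3 (helper58) -/
def StmtF3 : Prop := ∀ (S : Type) (ar : S → ℕ) (χ : (RelLang S ar).Sentence) (P : ℕ → Prop),
  Qdf χ Empty Empty (fun n _ _ => P n) → QSpectrum χ {n | 1 ≤ n ∧ P n}

/-! ## Renaming of variables -/

/-- renaming -/
def QFm.map {L : FirstOrder.Language.{0, 0}} : {α β : Type} → QFm L S ar α β →
    {α' β' : Type} → (α → α') → (β → β') → QFm L S ar α' β'
  | _, _, .fo φ, _, _, f, _ => .fo (φ.relabel f)
  | _, _, .rel j s t, _, _, f, g => .rel (g j) s (fun i => f (t i))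
  | _, _, .not φ, _, _, f, g => .not (φ.map f g)
  | _, _, .and φ ψ, _, _, f, g => .and (φ.map f g) (ψ.map f g)
  | _, _, .ex φ, _, _, f, g => .ex (φ.map (Sum.map f id) g)
  | _, _, .exR φ, _, _, f, g => .exR (φ.map f (Sum.map g id))

lemma QFm.holds_map {L : FirstOrder.Language.{0, 0}} (χ : (RelLang S ar).Sentence) {M : Type}
    [L.Structure M] {α β : Type} (φ : QFm L S ar α β) : ∀ {α' β' : Type} (f : α → α')
    (g : β → β') (v : α' → M) (V : β' → Interp S ar M),
    (φ.map f g).Holds χ v V ↔ φ.Holds χ (v ∘ f) (V ∘ g) := by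
  induction φ with
  | fo φ =>
    intro α' β' f g v V
    show (φ.relabel f).Realize v ↔ φ.Realize (v ∘ f)
    rw [Formula.realize_relabel]
  | rel j s t => intro α' β' f g v V; exact Iff.rfl
  | not φ ih => intro α' β' f g v V; exact not_congr (ih f g v V)
  | and φ ψ ih ih' => intro α' β' f g v V; exact and_congr (ih f g v V) (ih' f g v V)
  | ex φ ih =>
    intro α' β' f g v V
    refine exists_congr (fun x => ?_)
    have e : (Sum.elim v (fun _ => x) : α' ⊕ Unit → M) ∘ (Sum.map f id) =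
        Sum.elim (v ∘ f) (fun _ => x) := by
      funext i
      rcases i with i | i <;> rfl
    exact (ih (Sum.map f id) g _ V).trans (by rw [e])
  | exR φ ih =>
    intro α' β' f g v V
    refine exists_congr (fun R => and_congr Iff.rfl ?_)
    have e : (Sum.elim V (fun _ => R) : β' ⊕ Unit → Interp S ar M) ∘ (Sum.map g id) =
        Sum.elim (V ∘ g) (fun _ => R) := by
      funext i
      rcases i with i | i <;> rfl
    exact (ih f (Sum.map g id) v _).trans (by rw [e])

namespace Qdf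

variable {χ : (RelLang S ar).Sentence} {α β α' β' : Type}

lemma congr {P Q : QP S ar α β} (h : Qdf χ α β P) (hPQ : ∀ n v V, Q n v V ↔ P n v V) :
    Qdf χ α β Q := by
  obtain ⟨φ, hφ⟩ := h
  exact ⟨φ, fun n v V => (hφ n v V).trans (hPQ n v V).symm⟩

/-- renaming -/
lemma sub {P : QP S ar α β} (h : Qdf χ α β P) (f : α → α') (g : β → β') :
    Qdf χ α' β' (fun n v V => P n (v ∘ f) (V ∘ g)) := by
  obtain ⟨φ, hφ⟩ := h
  exact ⟨φ.map f g, fun n v V => (@QFm.holds_map S ar ArL χ (Fin n) (mkS (arI n)) α β φ α' β' f g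
    v V).trans (hφ n _ _)⟩

lemma not {P : QP S ar α β} (h : Qdf χ α β P) : Qdf χ α β (fun n v V => ¬ P n v V) := by
  obtain ⟨φ, hφ⟩ := h
  exact ⟨.not φ, fun n v V => not_congr (hφ n v V)⟩

lemma and {P Q : QP S ar α β} (h : Qdf χ α β P) (h' : Qdf χ α β Q) :
    Qdf χ α β (fun n v V => P n v V ∧ Q n v V) := by
  obtain ⟨φ, hφ⟩ := h
  obtain ⟨ψ, hψ⟩ := h'
  exact ⟨.and φ ψ, fun n v V => and_congr (hφ n v V) (hψ n v V)⟩

lemma or {P Q : QP S ar α β} (h : Qdf χ α β P) (h' : Qdf χ α β Q) :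
    Qdf χ α β (fun n v V => P n v V ∨ Q n v V) :=
  (Qdf.not (Qdf.and h.not h'.not)).congr (fun n v V => by tauto)

lemma imp {P Q : QP S ar α β} (h : Qdf χ α β P) (h' : Qdf χ α β Q) :
    Qdf χ α β (fun n v V => P n v V → Q n v V) :=
  (Qdf.or h.not h').congr (fun n v V => by tauto)

lemma iff {P Q : QP S ar α β} (h : Qdf χ α β P) (h' : Qdf χ α β Q) :
    Qdf χ α β (fun n v V => (P n v V ↔ Q n v V)) :=
  (Qdf.and (h.imp h') (h'.imp h)).congr (fun n v V => by tauto)

/-- first-order predicates over initial segments of arithmetic -/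
lemma ofFD {P : ∀ (M : Type), Interp Bool (fun _ => 3) M → (α → M) → Prop}
    (h : FD Bool (fun _ => 3) α P) : Qdf χ α β (fun n v _ => P (Fin n) (arI n) v) := by
  obtain ⟨φ, hφ⟩ := h
  exact ⟨.fo φ, fun n v V => hφ (Fin n) (arI n) v⟩

lemma rel (j : β) (s : S) (t : Fin (ar s) → α) :
    Qdf χ α β (fun n v V => V j s (fun i => v (t i))) :=
  ⟨.rel j s t, fun _ _ _ => Iff.rfl⟩

lemma const (p : Prop) : Qdf χ α β (fun _ _ _ => p) := ofFD (FD.const p)

lemma ex {P : ∀ n : ℕ, (α → Fin n) → (β → Interp S ar (Fin n)) → Fin n → Prop}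
    (h : Qdf χ (α ⊕ Unit) β (fun n v V => P n (v ∘ Sum.inl) V (v (Sum.inr ())))) :
    Qdf χ α β (fun n v V => ∃ x : Fin n, P n v V x) := by
  obtain ⟨φ, hφ⟩ := h
  exact ⟨.ex φ, fun n v V => exists_congr (fun x => hφ n _ V)⟩

lemma all {P : ∀ n : ℕ, (α → Fin n) → (β → Interp S ar (Fin n)) → Fin n → Prop}
    (h : Qdf χ (α ⊕ Unit) β (fun n v V => P n (v ∘ Sum.inl) V (v (Sum.inr ())))) :
    Qdf χ α β (fun n v V => ∀ x : Fin n, P n v V x) :=
  (Qdf.not (Qdf.ex (P := fun n v V x => ¬ P n v V x) h.not)).congr (fun n v V => by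
    constructor
    · intro h ⟨x, hx⟩; exact hx (h x)
    · intro h x; by_contra hx; exact h ⟨x, hx⟩)

lemma exR {P : ∀ n : ℕ, (α → Fin n) → (β → Interp S ar (Fin n)) → Interp S ar (Fin n) → Prop}
    (h : Qdf χ α (β ⊕ Unit) (fun n v V => P n v (V ∘ Sum.inl) (V (Sum.inr ())))) :
    Qdf χ α β (fun n v V => ∃ R : Interp S ar (Fin n), IsMod χ R ∧ P n v V R) := by
  obtain ⟨φ, hφ⟩ := h
  exact ⟨.exR φ, fun n v V => exists_congr (fun R => and_congr Iff.rfl (hφ n v _))⟩

/-- finitely many element quantifiers -/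
lemma exF {γ : Type} [Finite γ] {P : ∀ n : ℕ, (α → Fin n) → (β → Interp S ar (Fin n)) →
      (γ → Fin n) → Prop}
    (h : Qdf χ (α ⊕ γ) β (fun n v V => P n (v ∘ Sum.inl) V (v ∘ Sum.inr))) :
    Qdf χ α β (fun n v V => ∃ x : γ → Fin n, P n v V x) := by
  have key : ∀ (k : ℕ) (α : Type) (P : ∀ n : ℕ, (α → Fin n) → (β → Interp S ar (Fin n)) →
      (Fin k → Fin n) → Prop),
      Qdf χ (α ⊕ Fin k) β (fun n v V => P n (v ∘ Sum.inl) V (v ∘ Sum.inr)) →
      Qdf χ α β (fun n v V => ∃ x : Fin k → Fin n, P n v V x) := by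
    intro k
    induction k with
    | zero =>
      intro α P h
      refine (h.sub (Sum.elim id Fin.elim0) id).congr (fun n v V => ?_)
      have e : ∀ x : Fin 0 → Fin n, x = (v ∘ (Sum.elim id Fin.elim0 : α ⊕ Fin 0 → α)) ∘
          Sum.inr := by
        intro x; funext i; exact i.elim0
      constructor
      · rintro ⟨x, hx⟩
        rw [e x] at hx
        exact hx
      · intro hx
        exact ⟨_, hx⟩
    | succ k ih =>
      intro α P h
      have h1 := Qdf.ex (α := α) (P := fun n v V x => ∃ y : Fin k → Fin n, P n v V (Fin.cons x y))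
        (ih (α ⊕ Unit) (fun n v V y => P n (v ∘ Sum.inl) V (Fin.cons (v (Sum.inr ())) y)) ?_)
      · refine h1.congr (fun n v V => ?_)
        constructor
        · rintro ⟨x, hx⟩
          refine ⟨x 0, Fin.tail x, ?_⟩
          rw [Fin.cons_self_tail]
          exact hx
        · rintro ⟨x, y, hx⟩
          exact ⟨_, hx⟩
      · refine (h.sub (Sum.elim (fun a => Sum.inl (Sum.inl a))
          (Fin.cases (Sum.inl (Sum.inr ())) (fun i => Sum.inr i))) id).congr (fun n v V => ?_)
        refine Iff.of_eq (congrArg (P n _ V) ?_)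
        funext i
        refine Fin.cases ?_ (fun i => ?_) i <;> rfl
  obtain ⟨k, ⟨e⟩⟩ := Finite.exists_equiv_fin γ
  have h1 := key k α (fun n v V x => P n v V (x ∘ e)) ?_
  · refine h1.congr (fun n v V => ?_)
    constructor
    · rintro ⟨x, hx⟩
      refine ⟨x ∘ e.symm, ?_⟩
      have : (x ∘ e.symm) ∘ e = x := by funext i; simp
      rw [this]
      exact hx
    · rintro ⟨x, hx⟩
      exact ⟨_, hx⟩
  · refine (h.sub (Sum.map id e) id).congr (fun n v V => ?_)
    exact Iff.rfl

/-- finitely many quantifiers over models -/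
lemma exRF {γ : Type} [Finite γ] {P : ∀ n : ℕ, (α → Fin n) → (β → Interp S ar (Fin n)) →
      (γ → Interp S ar (Fin n)) → Prop}
    (h : Qdf χ α (β ⊕ γ) (fun n v V => P n v (V ∘ Sum.inl) (V ∘ Sum.inr))) :
    Qdf χ α β (fun n v V => ∃ X : γ → Interp S ar (Fin n), (∀ j, IsMod χ (X j)) ∧ P n v V X) := by
  have key : ∀ (k : ℕ) (β : Type) (P : ∀ n : ℕ, (α → Fin n) → (β → Interp S ar (Fin n)) →
      (Fin k → Interp S ar (Fin n)) → Prop),
      Qdf χ α (β ⊕ Fin k) (fun n v V => P n v (V ∘ Sum.inl) (V ∘ Sum.inr)) →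
      Qdf χ α β (fun n v V => ∃ X : Fin k → Interp S ar (Fin n), (∀ j, IsMod χ (X j)) ∧
        P n v V X) := by
    intro k
    induction k with
    | zero =>
      intro β P h
      refine (h.sub id (Sum.elim id Fin.elim0)).congr (fun n v V => ?_)
      have e : ∀ x : Fin 0 → Interp S ar (Fin n),
          x = (V ∘ (Sum.elim id Fin.elim0 : β ⊕ Fin 0 → β)) ∘ Sum.inr := by
        intro x; funext i; exact i.elim0
      constructor
      · rintro ⟨x, _, hx⟩
        rw [e x] at hx
        exact hx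
      · intro hx
        exact ⟨_, fun j => j.elim0, hx⟩
    | succ k ih =>
      intro β P h
      have h1 := Qdf.exR (β := β) (P := fun n v V R => ∃ Y : Fin k → Interp S ar (Fin n),
        (∀ j, IsMod χ (Y j)) ∧ P n v V (Fin.cons R Y))
        (ih (β ⊕ Unit) (fun n v V Y => P n v (V ∘ Sum.inl) (Fin.cons (V (Sum.inr ())) Y)) ?_)
      · refine h1.congr (fun n v V => ?_)
        constructor
        · rintro ⟨X, hX, hx⟩
          refine ⟨X 0, hX 0, Fin.tail X, fun j => hX j.succ, ?_⟩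
          rw [Fin.cons_self_tail]
          exact hx
        · rintro ⟨R, hR, Y, hY, hx⟩
          exact ⟨_, fun j => Fin.cases hR hY j, hx⟩
      · refine (h.sub id (Sum.elim (fun a => Sum.inl (Sum.inl a))
          (Fin.cases (Sum.inl (Sum.inr ())) (fun i => Sum.inr i)))).congr (fun n v V => ?_)
        refine Iff.of_eq (congrArg (P n v _) ?_)
        funext i
        refine Fin.cases ?_ (fun i => ?_) i <;> rfl
  obtain ⟨k, ⟨e⟩⟩ := Finite.exists_equiv_fin γ
  have h1 := key k β (fun n v V X => P n v V (X ∘ e)) ?_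
  · refine h1.congr (fun n v V => ?_)
    constructor
    · rintro ⟨X, hX, hx⟩
      refine ⟨X ∘ e.symm, fun j => hX _, ?_⟩
      have : (X ∘ e.symm) ∘ e = X := by funext i; simp
      rw [this]
      exact hx
    · rintro ⟨X, hX, hx⟩
      exact ⟨_, fun j => hX _, hx⟩
  · refine (h.sub id (Sum.map id e)).congr (fun n v V => ?_)
    exact Iff.rfl

/-- finite disjunctions -/
lemma exFin {γ : Type} [Finite γ] {P : γ → QP S ar α β} (h : ∀ c, Qdf χ α β (P c)) :
    Qdf χ α β (fun n v V => ∃ c, P c n v V) := by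
  have key : ∀ (k : ℕ) (P : Fin k → QP S ar α β), (∀ c, Qdf χ α β (P c)) →
      Qdf χ α β (fun n v V => ∃ c, P c n v V) := by
    intro k
    induction k with
    | zero =>
      intro P _
      exact (Qdf.const False).congr (fun n v V => by
        constructor
        · rintro ⟨c, _⟩; exact c.elim0
        · intro h; exact h.elim)
    | succ k ih =>
      intro P h
      refine (Qdf.or (h 0) (ih (fun c => P c.succ) (fun c => h c.succ))).congr (fun n v V => ?_)
      exact Fin.exists_fin_succ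
  obtain ⟨k, ⟨e⟩⟩ := Finite.exists_equiv_fin γ
  refine (key k (fun c => P (e.symm c)) (fun c => h _)).congr (fun n v V => ?_)
  constructor
  · rintro ⟨c, hc⟩
    exact ⟨e c, by rw [Equiv.symm_apply_apply]; exact hc⟩
  · rintro ⟨c, hc⟩
    exact ⟨_, hc⟩

/-- finite conjunctions -/
lemma allFin {γ : Type} [Finite γ] {P : γ → QP S ar α β} (h : ∀ c, Qdf χ α β (P c)) :
    Qdf χ α β (fun n v V => ∀ c, P c n v V) :=
  (Qdf.not (Qdf.exFin (fun c => (h c).not))).congr (fun n v V => by
    constructor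
    · intro h ⟨c, hc⟩; exact hc (h c)
    · intro h c; by_contra hc; exact h ⟨c, hc⟩)

end Qdf

end Pool.Agent.Helper58.QD
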